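import Mathlib
import Pool.Agent.Q72.Kob.Seq

/-!
# Boundary growth of the Kobayashi distance in Reinhardt domains: both estimates fail

The definitions (`kobayashi`, `bdist`, `IsReinhardt`, `IsPseudoconvex`, `zeroCount`) are in
`Pool.Agent.Q72.Kob.Defs`.
-/

set_option autoImplicit false

open Metric Set Filter Topology

namespace Pool.Agent.Results.MP_32da07_an.BothEstimatesFail

open Q72.Kob

/-- For all `n ≥ 3` and `0 ≤ N ≤ n - 3` there are a bounded pseudoconvex Reinhardt domain `D` in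
`ℂⁿ` and a boundary point `ζ₀` with `N(ζ₀) = N` such that for every base point the applicable
lower estimate of the Kobayashi distance fails near `ζ₀`. -/
theorem result :
    ∀ n N : ℕ, N + 3 ≤ n → ∃ (D : Set (EuclideanSpace ℂ (Fin n)))
      (ζ₀ : EuclideanSpace ℂ (Fin n)),
      IsOpen D ∧ IsConnected D ∧ Bornology.IsBounded D ∧ IsReinhardt D ∧ IsPseudoconvex D ∧
      ζ₀ ∈ frontier D ∧ zeroCount D ζ₀ = N ∧
      ∀ z₀ ∈ D, ∀ U ∈ 𝓝 ζ₀, ∀ C : ℝ, ∃ z ∈ D ∩ U,
        (N = 0 → kobayashi D z₀ z < -(1 / 2) * Real.log (bdist D z) + C) ∧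
        (1 ≤ N → kobayashi D z₀ z < 1 / 2 * Real.log (-Real.log (bdist D z)) + C) := by
  intro n N hn
  obtain ⟨n, rfl⟩ : ∃ m, n = m + 3 := ⟨n - 3, by omega⟩
  set P : Finset (Fin (n + 3)) := Finset.univ.filter fun i => 3 ≤ (i : ℕ) ∧ (i : ℕ) < 3 + N
    with hP
  have h0 : (0 : Fin (n + 3)) ∉ P := by
    simp [hP]
  have h1 : (1 : Fin (n + 3)) ∉ P := by
    simp only [hP, Finset.mem_filter, Finset.mem_univ, true_and, one_val]
    omega
  have h2 : (2 : Fin (n + 3)) ∉ P := by
    simp only [hP, Finset.mem_filter, Finset.mem_univ, true_and, two_val]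
    omega
  have hcard : P.card = N := by
    have h3 : P.map Fin.valEmbedding = Finset.Ico 3 (3 + N) := by
      ext i
      simp only [Finset.mem_map, hP, Finset.mem_filter, Finset.mem_univ, true_and,
        Fin.valEmbedding_apply, Finset.mem_Ico]
      constructor
      · rintro ⟨j, hj, rfl⟩
        exact hj
      · intro hi
        exact ⟨⟨i, by omega⟩, hi, rfl⟩
    rw [← Finset.card_map Fin.valEmbedding, h3, Nat.card_Ico]
    omega
  refine ⟨Dom Mseq P, zeta0 P, dom_isOpen Mseq_zero _, dom_connected h0 h1 h2,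
    dom_bounded _ _, dom_reinhardt _ _, dom_pseudoconvex Mseq_zero _,
    zeta0_frontier h0 h1 h2, by rw [zeroCount_eq h0 h1 h2, hcard], fun z₀ hz₀ U hU C => ?_⟩
  have e1 := (fail1 h0 h1 h2 hz₀).eventually_lt_atBot C
  have e2 := (fail2 h0 h1 h2 hz₀).eventually_lt_atBot C
  have e3 := (zz_tendsto P).eventually hU
  obtain ⟨k, ⟨hk1, hk2⟩, hk3⟩ := ((e1.and e2).and e3).exists
  refine ⟨zz P k, ⟨zz_mem h0 h1 h2 k, hk3⟩, fun _ => ?_, fun _ => ?_⟩
  · linarith
  · linarith

end Pool.Agent.Results.MP_32da07_an.BothEstimatesFail
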